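import Mathlib

/-! Exponential laws are not extremal for the tail ratio `R(z)`, but the inequalities hold with
smaller absolute constants. -/

namespace Pool.Agent.Results.MP_966169_pr.Tail

open MeasureTheory ProbabilityTheory Set Filter Topology Real

/-- admissible laws: probability measures on `[0,∞)`, absolutely continuous, with unbounded
support -/
def Adm (μ : Measure ℝ) : Prop :=
  IsProbabilityMeasure μ ∧ μ (Iio 0) = 0 ∧ μ ≪ volume ∧ ∀ t, 0 < μ (Ioi t)

/-- the ratio `R(z)` for independent `X, Y` with law `μ` -/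
noncomputable def R (μ : Measure ℝ) (z : ℝ) : ℝ :=
  (μ.prod μ).real {p | 2 * z ≤ p.1 + p.2 ∧ min p.1 p.2 ≤ z} /
    (μ.prod μ).real {p | 2 * z ≤ p.1 + p.2 ∧ z ≤ min p.1 p.2}

/-- `m` is a median -/
def IsMed (μ : Measure ℝ) (m : ℝ) : Prop := 0 ≤ m ∧ μ.real (Iic m) = 1 / 2

variable {μ : Measure ℝ}

lemma den (μ : Measure ℝ) [SFinite μ] (z : ℝ) :
    (μ.prod μ).real {p | 2 * z ≤ p.1 + p.2 ∧ z ≤ min p.1 p.2} = μ.real (Ici z) ^ 2 := by
  have : {p : ℝ × ℝ | 2 * z ≤ p.1 + p.2 ∧ z ≤ min p.1 p.2} = Ici z ×ˢ Ici z := by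
    ext ⟨x, y⟩
    simp only [mem_ofPred_eq, le_min_iff, mem_prod, mem_Ici]
    exact ⟨fun h => h.2, fun h => ⟨by linarith [h.1, h.2], h⟩⟩
  rw [this, measureReal_prod_prod, sq]

lemma Adm.null (h : Adm μ) : NullSingletonClass μ := ⟨fun x => h.2.2.1 (measure_singleton x)⟩

lemma Adm.tail (h : Adm μ) (x : ℝ) : μ.real (Ici x) = 1 - cdf μ x := by
  have := h.1
  have := h.null
  rw [cdf_eq_real, ← probReal_compl_eq_one_sub measurableSet_Iic, compl_Iic]
  exact measureReal_congr Ioi_ae_eq_Ici.symm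

lemma Adm.cont (h : Adm μ) : Continuous fun x => μ.real (Ici x) := by
  have := h.1
  have := h.null
  simp only [h.tail]
  refine continuous_const.sub (continuous_iff_continuousAt.2 fun x => ?_)
  rw [(monotone_cdf μ).continuousAt_iff_leftLim_eq_rightLim, StieltjesFunction.rightLim_eq]
  have h1 := (cdf μ).measure_singleton x
  rw [measure_cdf, measure_singleton, eq_comm, ENNReal.ofReal_eq_zero] at h1
  exact le_antisymm ((monotone_cdf μ).leftLim_le le_rfl) (by linarith)

lemma Adm.pos (h : Adm μ) (x : ℝ) : 0 < μ.real (Ici x) := by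
  have := h.1
  exact ENNReal.toReal_pos ((h.2.2.2 x).trans_le (measure_mono Ioi_subset_Ici_self)).ne'
    (measure_ne_top _ _)

lemma Adm.zero (h : Adm μ) : μ.real (Ici 0) = 1 := by
  have := h.1
  rw [← compl_Iio, probReal_compl_eq_one_sub measurableSet_Iio, measureReal_def, h.2.1]; simp

lemma Adm.anti (h : Adm μ) : Antitone fun x => μ.real (Ici x) := by
  have := h.1
  exact fun a b hab => measureReal_mono (Ici_subset_Ici.2 hab)

lemma Adm.level (h : Adm μ) {y : ℝ} (h0 : 0 < y) (h1 : y ≤ 1) :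
    ∃ x, 0 ≤ x ∧ μ.real (Ici x) = y := by
  have ht : Tendsto (fun x => μ.real (Ici x)) atTop (𝓝 0) := by
    simp only [h.tail]
    simpa using (tendsto_cdf_atTop μ).const_sub 1
  obtain ⟨b, hb, hb0⟩ := ((ht.eventually (gt_mem_nhds h0)).and (eventually_ge_atTop 0)).exists
  obtain ⟨x, hx, e⟩ := intermediate_value_Icc' hb0 h.cont.continuousOn
    (show y ∈ Icc _ _ from ⟨hb.le, by rw [h.zero]; exact h1⟩)
  exact ⟨x, hx.1, e⟩

lemma num_ge [IsProbabilityMeasure μ] {z t : ℝ} (ht : 0 < t) :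
    2 * ((μ.real (Ici (z - t)) - μ.real (Ici z)) * μ.real (Ici (z + t))) ≤
      (μ.prod μ).real {p | 2 * z ≤ p.1 + p.2 ∧ min p.1 p.2 ≤ z} := by
  have e : μ.real (Ico (z - t) z) = μ.real (Ici (z - t)) - μ.real (Ici z) := by
    rw [← Ici_diff_Ici, measureReal_diff (Ici_subset_Ici.2 (by linarith)) measurableSet_Ici]
  have hd : Disjoint (Ico (z - t) z ×ˢ Ici (z + t)) (Ici (z + t) ×ˢ Ico (z - t) z) := by
    rw [Set.disjoint_left]
    rintro ⟨x, y⟩ h1 h2
    have := h1.1.2; have : z + t ≤ x := h2.1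
    simp only at *; linarith
  rw [← e, two_mul]
  nth_rewrite 2 [mul_comm]
  rw [← measureReal_prod_prod, ← measureReal_prod_prod,
    ← measureReal_union hd (measurableSet_Ici.prod measurableSet_Ico)]
  refine measureReal_mono ?_
  rintro ⟨x, y⟩ (⟨⟨h1, h2⟩, h3⟩ | ⟨h3, h1, h2⟩) <;> simp only [mem_Ici] at * <;>
    refine ⟨by simp only; linarith, ?_⟩
  · exact min_le_of_left_le h2.le
  · exact min_le_of_right_le h2.le

lemma lower (h : Adm μ) {m : ℝ} (hm : IsMed μ m) : ∃ z > 0, 1 / 8 * z / m ≤ R μ z := by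
  have := h.1
  set G : ℝ → ℝ := fun x => μ.real (Ici x) with hG
  have hGm : G m = 1 / 2 := by simp only [hG, h.tail, cdf_eq_real, hm.2]; norm_num
  have hm0 : 0 < m := hm.1.lt_of_ne fun e => by
    have := h.zero
    rw [e] at this; simp only [hG] at hGm; linarith
  by_contra hc
  push Not at hc
  have hlev : ∀ j : ℕ, ∃ x, 0 ≤ x ∧ G x = 11 / 16 * (8 / 11) ^ j ∧ (j = 1 → x = m) := by
    intro j
    by_cases hj : j = 1
    · exact ⟨m, hm0.le, by rw [hGm, hj]; norm_num, fun _ => rfl⟩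
    · have : (8 / 11 : ℝ) ^ j ≤ 1 := pow_le_one₀ (by norm_num) (by norm_num)
      obtain ⟨x, h1, h2⟩ := h.level (y := 11 / 16 * (8 / 11) ^ j) (by positivity) (by linarith)
      exact ⟨x, h1, h2, fun e => absurd e hj⟩
  choose z hz0 hz hz1 using hlev
  have hlt : ∀ j, z j < z (j + 1) := by
    intro j
    by_contra hle
    have h1 : G (z j) ≤ G (z (j + 1)) := h.anti (not_lt.1 hle)
    rw [hz, hz, pow_succ] at h1
    have : (0 : ℝ) < (8 / 11) ^ j := by positivity
    linarith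
  have key : ∀ j, z (j + 1) ≤ 3 * m → z (j + 3) - z (j + 1) < z (j + 1) - z j := by
    intro j hj
    have hp : 0 < z (j + 1) := (hz0 j).trans_lt (hlt j)
    have ht : 0 < z (j + 3) - z (j + 1) := by linarith [hlt (j + 1), hlt (j + 2)]
    have h1 := hc _ hp
    have h2 := num_ge (μ := μ) (z := z (j + 1)) ht
    rw [R, den, div_lt_iff₀ (pow_pos (h.pos _) 2)] at h1
    have h3 : 1 / 8 * z (j + 1) / m ≤ 3 / 8 := by rw [div_le_iff₀ hm0]; linarith
    rw [add_sub_cancel] at h2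
    by_contra hle
    have h4 : G (z j) ≤ G (z (j + 1) - (z (j + 3) - z (j + 1))) := h.anti (by linarith)
    change 2 * ((G _ - G _) * G _) ≤ _ at h2
    change _ < _ * G _ ^ 2 at h1
    rw [hz j] at h4
    rw [hz (j + 1), hz (j + 3)] at h2
    rw [hz (j + 1)] at h1
    simp only [pow_succ] at h1 h2
    have hq : (0 : ℝ) < (8 / 11) ^ j := by positivity
    set q := (8 / 11 : ℝ) ^ j
    nlinarith [mul_pos hq hq]
  have inv : ∀ j, z (j + 2) + z (j + 1) - z j < 3 * m := by
    intro j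
    induction j with
    | zero =>
      have := key 0 (by rw [hz1 1 rfl]; linarith)
      have := hlt 2; have := hz0 0; have := hz1 1 rfl
      simp only [zero_add] at *
      linarith
    | succ j ih =>
      have := key j (by linarith [hlt j, hlt (j + 1)])
      linarith
  have ht : Tendsto (fun j : ℕ => 11 / 16 * (8 / 11 : ℝ) ^ j) atTop (𝓝 0) := by
    simpa using (tendsto_pow_atTop_nhds_zero_of_lt_one (r := (8 / 11 : ℝ)) (by norm_num)
      (by norm_num)).const_mul (11 / 16)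
  obtain ⟨j, hj⟩ := (ht.eventually (gt_mem_nhds (h.pos (3 * m)))).exists
  have h5 : G (3 * m) ≤ G (z j) := h.anti (by linarith [inv j, hlt j, hlt (j + 1)])
  rw [hz] at h5
  exact absurd hj (not_lt.2 h5)

noncomputable def f (x : ℝ) : ℝ := (2 / 3 + x / 3) * exp (-x)

noncomputable def μ0 : Measure ℝ := (volume.restrict (Ioi 0)).withDensity fun x => .ofReal (f x)

lemma f_meas : Measurable fun x => ENNReal.ofReal (f x) := by unfold f; fun_prop

lemma poly_tendsto (a b c : ℝ) : Tendsto (fun x => -((a + b * x + c * x ^ 2) * exp (-x))) atTop (𝓝 0) := by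
  have := ((((tendsto_pow_mul_exp_neg_atTop_nhds_zero 0).const_mul a).add
    ((tendsto_pow_mul_exp_neg_atTop_nhds_zero 1).const_mul b)).add
    ((tendsto_pow_mul_exp_neg_atTop_nhds_zero 2).const_mul c)).neg
  simp only [mul_zero, add_zero, neg_zero] at this
  exact this.congr fun x => by ring

lemma poly_deriv (a b c x : ℝ) : HasDerivAt (fun x => -((a + b * x + c * x ^ 2) * exp (-x)))
    ((a - b + (b - 2 * c) * x + c * x ^ 2) * exp (-x)) x := by
  have h1 : HasDerivAt (fun x => a + b * x + c * x ^ 2) (b + c * (2 * x)) x := by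
    exact ((((hasDerivAt_id x).const_mul b).const_add a).add
      ((hasDerivAt_pow 2 x).const_mul c)).congr_deriv (by simp)
  have h2 : HasDerivAt (fun x => exp (-x)) (exp (-x) * -1) x := (hasDerivAt_neg x).exp
  exact ((h1.mul h2).neg).congr_deriv (by ring)

lemma μ0_Ioi {s : ℝ} (hs : 0 ≤ s) : μ0 (Ioi s) = .ofReal ((1 + s / 3) * exp (-s)) := by
  have hd : ∀ x ∈ Ici s, HasDerivAt (fun x => -((1 + 1 / 3 * x + 0 * x ^ 2) * exp (-x))) (f x) x :=
    fun x _ => (poly_deriv 1 (1 / 3) 0 x).congr_deriv (by unfold f; ring)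
  have hp : ∀ x ∈ Ioi s, 0 ≤ f x := fun x hx => by
    have : 0 ≤ x := hs.trans (le_of_lt hx)
    unfold f; positivity
  rw [μ0, withDensity_apply _ measurableSet_Ioi, Measure.restrict_restrict measurableSet_Ioi,
    inter_eq_left.2 (Ioi_subset_Ioi hs), ← ofReal_integral_eq_lintegral_ofReal
      (integrableOn_Ioi_deriv_of_nonneg' hd hp (poly_tendsto _ _ _))
      (ae_restrict_of_forall_mem measurableSet_Ioi hp),
    integral_Ioi_of_hasDerivAt_of_nonneg' hd hp (poly_tendsto _ _ _)]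
  congr 1; ring

lemma μ0_ac : μ0 ≪ volume :=
  (withDensity_absolutelyContinuous _ _).trans Measure.absolutelyContinuous_restrict

lemma μ0_Iic : μ0 (Iic 0) = 0 :=
  withDensity_absolutelyContinuous _ _ (by
    rw [Measure.restrict_apply measurableSet_Iic, (Iic_disjoint_Ioi le_rfl).inter_eq, measure_empty])

lemma adm0 : Adm μ0 := by
  refine ⟨⟨?_⟩, measure_mono_null Iio_subset_Iic_self μ0_Iic, μ0_ac, fun t => ?_⟩
  · rw [← Iic_union_Ioi (a := (0 : ℝ)), measure_union (Iic_disjoint_Ioi le_rfl) measurableSet_Ioi,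
      μ0_Iic, μ0_Ioi le_rfl]
    simp
  · refine lt_of_lt_of_le ?_ (measure_mono (Ioi_subset_Ioi (le_max_left t 0)))
    rw [μ0_Ioi (le_max_right _ _), ENNReal.ofReal_pos]
    have := le_max_right t 0
    positivity

lemma μ0_Ici {s : ℝ} (hs : 0 ≤ s) : μ0 (Ici s) = .ofReal ((1 + s / 3) * exp (-s)) := by
  have := adm0.null
  rw [← μ0_Ioi hs, measure_congr Ioi_ae_eq_Ici]

lemma mean0 : Integrable id μ0 ∧ ∫ x, x ∂μ0 = 4 / 3 := by
  have hd : ∀ x ∈ Ici (0 : ℝ), HasDerivAt (fun x => -((4 / 3 + 4 / 3 * x + 1 / 3 * x ^ 2) * exp (-x)))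
      (f x * x) x := fun x _ => (poly_deriv _ _ _ x).congr_deriv (by unfold f; ring)
  have hp : ∀ x ∈ Ioi (0 : ℝ), 0 ≤ f x * x := fun x hx => by
    have : 0 < x := hx
    unfold f; positivity
  have hae : (fun x => (ENNReal.ofReal (f x)).toReal • x) =ᵐ[volume.restrict (Ioi 0)]
      fun x => f x * x := ae_restrict_of_forall_mem measurableSet_Ioi fun x hx => by
    have : 0 < x := hx
    simp only [smul_eq_mul]
    rw [ENNReal.toReal_ofReal (by unfold f; positivity)]
  constructor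
  · rw [μ0, integrable_withDensity_iff_integrable_smul' f_meas (by simp)]
    exact (integrableOn_Ioi_deriv_of_nonneg' hd hp (poly_tendsto _ _ _)).congr hae.symm
  · rw [μ0, integral_withDensity_eq_integral_toReal_smul f_meas (by simp), integral_congr_ae hae,
      integral_Ioi_of_hasDerivAt_of_nonneg' hd hp (poly_tendsto _ _ _)]
    simp

lemma half_num {z : ℝ} (hz : 0 < z) : μ0.prod μ0 {p | p.1 ≤ z ∧ 2 * z - p.1 ≤ p.2} ≤
    .ofReal ((2 / 3 * z + 1 / 2 * z ^ 2 + 2 / 27 * z ^ 3) * exp (-z) ^ 2) := by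
  have := adm0.1
  have hm : MeasurableSet {p : ℝ × ℝ | p.1 ≤ z ∧ 2 * z - p.1 ≤ p.2} := by measurability
  have hi : ∫ x in (0 : ℝ)..z, (2 / 3 + x / 3) * (1 + (2 * z - x) / 3) * exp (-z) ^ 2 =
      (2 / 3 * z + 1 / 2 * z ^ 2 + 2 / 27 * z ^ 3) * exp (-z) ^ 2 := by
    rw [intervalIntegral.integral_mul_const]
    congr 1
    have : ∀ x : ℝ, (2 / 3 + x / 3) * (1 + (2 * z - x) / 3) =
        (2 / 3 + 4 / 9 * z) + (1 / 9 + 2 / 9 * z) * x ^ 1 - 1 / 9 * x ^ 2 := fun x => by ring
    simp only [this]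
    rw [intervalIntegral.integral_sub (by apply Continuous.intervalIntegrable; fun_prop)
      (by apply Continuous.intervalIntegrable; fun_prop), intervalIntegral.integral_add
      (by apply Continuous.intervalIntegrable; fun_prop)
      (by apply Continuous.intervalIntegrable; fun_prop), intervalIntegral.integral_const_mul,
      intervalIntegral.integral_const_mul, integral_pow, integral_pow]
    simp; ring
  rw [Measure.prod_apply hm, ← hi, intervalIntegral.integral_of_le hz.le,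
    ofReal_integral_eq_lintegral_ofReal (by apply Continuous.integrableOn_Ioc; fun_prop)
      (ae_restrict_of_forall_mem measurableSet_Ioc fun x hx => by
        have := hx.1
        have : 0 ≤ 2 * z - x := by linarith [hx.2]
        positivity)]
  conv_lhs => rw [μ0]
  rw [lintegral_withDensity_eq_lintegral_mul _ f_meas (measurable_measure_prodMk_left hm),
    ← lintegral_indicator measurableSet_Ioi, ← lintegral_indicator measurableSet_Ioc]
  refine lintegral_mono fun x => ?_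
  by_cases h0 : x ∈ Ioi (0 : ℝ)
  · rw [indicator_of_mem h0]
    have h0' : 0 < x := h0
    by_cases h1 : x ≤ z
    · have e : Prod.mk x ⁻¹' {p : ℝ × ℝ | p.1 ≤ z ∧ 2 * z - p.1 ≤ p.2} = Ici (2 * z - x) := by
        ext y; simp [h1]
      rw [indicator_of_mem (show x ∈ Ioc 0 z from ⟨h0, h1⟩), Pi.mul_apply, e, ← μ0,
        μ0_Ici (by linarith), ← ENNReal.ofReal_mul (by unfold f; positivity)]
      refine le_of_eq (congrArg _ ?_)
      have : exp (-z) ^ 2 = exp (-x) * exp (-(2 * z - x)) := by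
        rw [sq, ← exp_add, ← exp_add]; congr 1; ring
      rw [this, f]; ring
    · have e : Prod.mk x ⁻¹' {p : ℝ × ℝ | p.1 ≤ z ∧ 2 * z - p.1 ≤ p.2} = ∅ := by
        ext y; simp [h1]
      rw [Pi.mul_apply, e, measure_empty, mul_zero]
      exact zero_le
  · simp [indicator_of_notMem h0]

lemma R0 {z : ℝ} (hz : 0 < z) : R μ0 z ≤ 17 / 12 * z := by
  have := adm0.1
  have hm : MeasurableSet {p : ℝ × ℝ | p.1 ≤ z ∧ 2 * z - p.1 ≤ p.2} := by measurability
  have h1 := ENNReal.toReal_le_of_le_ofReal (by positivity) (half_num hz)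
  have h2 : (μ0.prod μ0) (Prod.swap ⁻¹' {p : ℝ × ℝ | p.1 ≤ z ∧ 2 * z - p.1 ≤ p.2}) =
      (μ0.prod μ0) {p : ℝ × ℝ | p.1 ≤ z ∧ 2 * z - p.1 ≤ p.2} := by
    rw [← Measure.map_apply measurable_swap hm, Measure.prod_swap]
  have h3 : (μ0.prod μ0).real {p | 2 * z ≤ p.1 + p.2 ∧ min p.1 p.2 ≤ z} ≤
      (μ0.prod μ0).real ({p : ℝ × ℝ | p.1 ≤ z ∧ 2 * z - p.1 ≤ p.2} ∪
        Prod.swap ⁻¹' {p : ℝ × ℝ | p.1 ≤ z ∧ 2 * z - p.1 ≤ p.2}) := by
    refine measureReal_mono ?_
    rintro ⟨x, y⟩ ⟨a, b⟩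
    rcases min_le_iff.1 b with b | b
    · exact Or.inl ⟨b, by simp only at a ⊢; linarith⟩
    · exact Or.inr ⟨b, by simp only [Prod.swap] at a ⊢; linarith⟩
  have h4 := h3.trans (measureReal_union_le _ _)
  simp only [measureReal_def] at h4
  rw [h2] at h4
  rw [R, den, measureReal_def (μ := μ0), μ0_Ici hz.le, ENNReal.toReal_ofReal (by positivity),
    div_le_iff₀ (by positivity), mul_pow, ← mul_assoc, measureReal_def]
  have h5 : 2 * (2 / 3 * z + 1 / 2 * z ^ 2 + 2 / 27 * z ^ 3) ≤ 17 / 12 * z * (1 + z / 3) ^ 2 := by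
    nlinarith [mul_nonneg hz.le (sq_nonneg (z - 3))]
  nlinarith [mul_le_mul_of_nonneg_right h5 (sq_nonneg (exp (-z)))]

lemma exists_med (h : Adm μ) : ∃ m, IsMed μ m ∧ μ.real (Ici m) = 1 / 2 := by
  have := h.1
  obtain ⟨m, h0, h1⟩ := h.level (y := 1 / 2) (by norm_num) (by norm_num)
  refine ⟨m, ⟨h0, ?_⟩, h1⟩
  rw [h.tail, cdf_eq_real] at h1; linarith

theorem result :
    (∃ μ : Measure ℝ, Adm μ ∧ Integrable id μ ∧ (∃ m, IsMed μ m) ∧
      (∀ m, IsMed μ m → ∀ z > 0, R μ z < 2 * log 2 * z / m) ∧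
      ∀ z > 0, R μ z < 2 * z / ∫ x, x ∂μ) ∧
    ∀ μ : Measure ℝ, Adm μ → (∀ m, IsMed μ m → ∃ z > 0, 1 / 8 * z / m ≤ R μ z) ∧
      (Integrable id μ → ∃ z > 0, 1 / 16 * z / (∫ x, x ∂μ) ≤ R μ z) := by
  refine ⟨⟨μ0, adm0, mean0.1, (exists_med adm0).imp fun _ h => h.1, fun m hm z hz => ?_,
    fun z hz => ?_⟩, fun μ h => ⟨fun m hm => lower h hm, fun hi => ?_⟩⟩
  · have := adm0.1
    have hG : μ0.real (Ici m) = 1 / 2 := by rw [adm0.tail, cdf_eq_real, hm.2]; norm_num
    have hm0 : 0 < m := hm.1.lt_of_ne fun e => by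
      have := adm0.zero
      rw [e] at this; linarith
    have hm1 : m < 0.978 := by
      by_contra hc
      have h1 : μ0.real (Ici m) ≤ μ0.real (Ici 0.978) := adm0.anti (not_lt.1 hc)
      rw [hG, measureReal_def, μ0_Ici (by norm_num), ENNReal.toReal_ofReal (by positivity),
        exp_neg, ← div_eq_mul_inv, le_div_iff₀ (exp_pos _)] at h1
      have h2 := Real.sum_le_exp_of_nonneg (x := 0.978) (by norm_num) 6
      simp only [Finset.sum_range_succ, Finset.range_zero, Finset.sum_empty, Nat.factorial] at h2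
      norm_num at h1 h2
      linarith
    refine (R0 hz).trans_lt ?_
    rw [lt_div_iff₀ hm0]
    have := Real.log_two_gt_d9
    nlinarith [mul_pos hz (sub_pos.2 hm1)]
  · rw [mean0.2]
    linarith [R0 hz]
  · have := h.1
    obtain ⟨m, hm, hG⟩ := exists_med h
    obtain ⟨z, hz, h1⟩ := lower h hm
    have hm0 : 0 < m := hm.1.lt_of_ne fun e => by
      have := h.zero
      rw [e] at this; linarith
    have h0 : 0 ≤ᵐ[μ] (id : ℝ → ℝ) := by
      rw [EventuallyLE, ae_iff]
      simpa [Iio] using h.2.1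
    have h2 := mul_meas_ge_le_integral_of_nonneg h0 hi m
    change m * μ.real (Ici m) ≤ ∫ x, x ∂μ at h2
    refine ⟨z, hz, le_trans ?_ h1⟩
    rw [div_le_div_iff₀ (by rw [hG] at h2; linarith) hm0]
    rw [hG] at h2
    nlinarith

end Pool.Agent.Results.MP_966169_pr.Tail
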